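import Pool.Agent.MP_9c5a49_an.H98.Trans
import Pool.Agent.MP_9c5a49_an.H23.LemB
import Pool.Agent.MP_9c5a49_an.H23.Glue
import Pool.Agent.MP_9c5a49_an.H23.App
import Pool.Agent.MP_9c5a49_an.H23.Final

/-!
K-theory of the geometric part of an ideal of the uniform Roe algebra of a coarsely embeddable
space: the inclusion is surjective on `K₀` and on `K₁`.
-/

set_option autoImplicit false

namespace Pool.Agent.Results.MP_9c5a49_an.Full

open Filter Pool.Agent.MP_9c5a49_an.H98 Pool.Agent.MP_9c5a49_an.H23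

theorem result.{u} (X : Type) [MetricSpace X] (hX : BddGeom X)
    (𝕜 : Type) [RCLike 𝕜] (E : Type u) [NormedAddCommGroup E] [InnerProductSpace 𝕜 E]
    (f : X → E) (ρm ρp : ℝ → ℝ) (hm : MonotoneOn ρm (Set.Ici 0))
    (hp : MonotoneOn ρp (Set.Ici 0)) (hlim : Tendsto ρm atTop atTop)
    (hf : ∀ x y, ρm (dist x y) ≤ ‖f x - f y‖ ∧ ‖f x - f y‖ ≤ ρp (dist x y))
    (H : Type) [NormedAddCommGroup H] [InnerProductSpace ℂ H] [CompleteSpace H]
    (b : HilbertBasis X ℂ H) (I J : NonUnitalSubalgebra ℂ (H →L[ℂ] H))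
    (hI : IsIdealOf (closure (FinProp b)) I)
    (hJ : (J : Set (H →L[ℂ] H)) = closure ((I : Set (H →L[ℂ] H)) ∩ FinProp b)) (h : J ≤ I) :
    Function.Surjective (KZero.map (NonUnitalSubalgebra.inclusion h)) ∧
      Function.Surjective (K1.map (NonUnitalSubalgebra.inclusion h) (continuous_inclusion h)) :=
  main_basis X H b hX (locEmb_of_locJL_rc (locJL_of_approx (approx_of_lemB lemB)) X hX 𝕜 E f ρm ρp
    hm hp hlim hf) I J hI hJ h

/-- The subalgebra `J` of the statement exists for every ideal `I`. -/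
theorem exists_J (X : Type) [MetricSpace X] (H : Type) [NormedAddCommGroup H]
    [InnerProductSpace ℂ H] [CompleteSpace H] (b : HilbertBasis X ℂ H)
    (I : NonUnitalSubalgebra ℂ (H →L[ℂ] H)) (hI : IsIdealOf (closure (FinProp b)) I) :
    ∃ J : NonUnitalSubalgebra ℂ (H →L[ℂ] H),
      (J : Set (H →L[ℂ] H)) = closure ((I : Set (H →L[ℂ] H)) ∩ FinProp b) ∧ J ≤ I := by
  let F : NonUnitalSubalgebra ℂ (H →L[ℂ] H) :=
    { carrier := FinProp b
      zero_mem' := ⟨0, fun x y h => (h (by simp)).elim⟩
      add_mem' := by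
        rintro S T ⟨R, hR⟩ ⟨R', hR'⟩
        refine ⟨max R R', fun x y h => by_contra fun hd => h ?_⟩
        rw [add_apply, inner_add_right,
          of_not_not fun h1 => hd ((hR x y h1).trans (le_max_left _ _)),
          of_not_not fun h1 => hd ((hR' x y h1).trans (le_max_right _ _)), add_zero]
      smul_mem' := by
        rintro c T ⟨R, hR⟩
        refine ⟨R, fun x y h => hR x y fun h1 => h ?_⟩
        rw [smul_apply, inner_smul_right, h1, mul_zero]
      mul_mem' := by
        rintro S T ⟨R, hR⟩ ⟨R', hR'⟩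
        refine ⟨R + R', fun x y h => by_contra fun hd => h ?_⟩
        have h1 := ((b.hasSum_repr (T (b y))).mapL S).mapL (innerSL ℂ (b x))
        refine h1.unique (hasSum_zero.congr_fun fun z => by_contra fun hz => hd ?_)
        rw [map_smul, map_smul, smul_eq_mul, b.repr_apply_apply] at hz
        exact (dist_triangle x z y).trans
          (add_le_add (hR x z (right_ne_zero_of_mul hz)) (hR' z y (left_ne_zero_of_mul hz))) }
  exact ⟨(I ⊓ F).topologicalClosure, rfl,
    NonUnitalSubalgebra.topologicalClosure_minimal inf_le_left hI.closed⟩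

end Pool.Agent.Results.MP_9c5a49_an.Full
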